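import Pool.Agent.helper7.CS.SpecA

/-! # Project cs:, row LBG (helper16): at a critical point a near return forces a small tube -/

set_option autoImplicit false

open Complex Metric Set Filter Topology MeasureTheory
open Pool.Agent.helper98.ILF
open HY (UD T S hd UN RM)
open PM (DD rm cx pd cr hdf)

noncomputable section

namespace CSF

/-- holomorphic inverse of an injective holomorphic function on a ball. -/
theorem LBG_inv (hKO0 : V3.KO0_stmt) {F : ℂ → ℂ} {d : ℝ} (hF : DifferentiableOn ℂ F (ball 0 d))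
    (hinj : InjOn F (ball 0 d)) :
    ∃ g : ℂ → ℂ, (∀ x ∈ ball (0 : ℂ) d, g (F x) = x) ∧ (∀ x ∈ ball (0 : ℂ) d, DifferentiableAt ℂ g (F x)) := by
  have hop : IsOpen (ball (0 : ℂ) d) := isOpen_ball
  have hg : ∀ x ∈ ball (0 : ℂ) d, Function.invFunOn F (ball 0 d) (F x) = x := fun x hx =>
    Function.invFunOn_apply_eq (f := F) hx |> fun h =>
      hinj (Function.invFunOn_apply_mem (f := F) hx) hx h
  refine ⟨Function.invFunOn F (ball 0 d), hg, ?_⟩
  intro x hx
  set g := Function.invFunOn F (ball 0 d) with hgdef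
  have han : AnalyticAt ℂ F x := hF.analyticAt (hop.mem_nhds hx)
  have hne : deriv F x ≠ 0 := hKO0 F (ball 0 d) hop hF hinj _ hx
  have hst : HasStrictDerivAt F (deriv F x) x := han.hasStrictDerivAt
  have hmap : Filter.map F (𝓝 x) = 𝓝 (F x) := hst.map_nhds_eq hne
  have hgx : g (F x) = x := hg x hx
  have hcont : ContinuousAt g (F x) := by
    have e1 : Tendsto (g ∘ F) (𝓝 x) (𝓝 x) := by
      refine Tendsto.congr' ?_ tendsto_id
      have e2 : ∀ᶠ y in 𝓝 x, y ∈ ball (0 : ℂ) d := hop.mem_nhds hx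
      filter_upwards [e2] with y hy
      exact (hg y hy).symm
    have e4 : Tendsto g (Filter.map F (𝓝 x)) (𝓝 x) := by
      rw [tendsto_map'_iff]
      exact e1
    rw [hmap] at e4
    unfold ContinuousAt
    rw [hgx]
    exact e4
  have hst' : HasDerivAt F (deriv F x) (g (F x)) := by
    rw [hgx]; exact hst.hasDerivAt
  refine (HasDerivAt.of_local_left_inverse hcont hst' hne ?_).differentiableAt
  have e5 : ∀ᶠ y in Filter.map F (𝓝 x), F (g y) = y := by
    rw [Filter.eventually_map]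
    filter_upwards [hop.mem_nhds hx] with y hy
    rw [hg y hy]
  rw [hmap] at e5
  exact e5

/-- Schwarz with a double zero. -/
theorem LBG_schwarz {Q : ℂ → ℂ} (hd : DifferentiableOn ℂ Q (ball 0 1)) (hm : MapsTo Q (ball 0 1) (closedBall 0 1))
    (h0 : Q 0 = 0) (h1 : deriv Q 0 = 0) {x : ℂ} (hx : ‖x‖ < 1) : ‖Q x‖ ≤ ‖x‖ ^ 2 := by
  have hx' : x ∈ ball (0 : ℂ) 1 := mem_ball_zero_iff.2 hx
  have hq1 : DifferentiableOn ℂ (dslope Q 0) (ball 0 1) :=
    (Complex.differentiableOn_dslope (isOpen_ball.mem_nhds (mem_ball_self one_pos))).2 hd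
  have hq2 : MapsTo (dslope Q 0) (ball 0 1) (closedBall 0 1) := by
    intro z hz
    rw [mem_closedBall_zero_iff]
    have := Complex.norm_dslope_le_div_of_mapsTo_ball (f := Q) (c := 0) (R₁ := 1) (R₂ := 1) hd
      (by rw [h0]; exact hm) hz
    simpa using this
  have hq3 : dslope Q 0 0 = 0 := by rw [dslope_same, h1]
  have h2 := Complex.norm_le_norm_of_mapsTo_ball hq1 hq2 hq3 hx
  rcases eq_or_ne x 0 with rfl | hne
  · rw [h0]; simp
  · rw [dslope_of_ne _ hne, slope_def_field, h0, sub_zero, sub_zero, norm_div] at h2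
    have hxp : 0 < ‖x‖ := norm_pos_iff.2 hne
    rw [div_le_iff₀ hxp] at h2
    rw [sq]; exact h2

theorem LBG (hLVB : LVB_stmt) (hTDF : PM.TDF_stmt) (hKO0 : V3.KO0_stmt) (hKO1 : V3.KO1_stmt)
    (hMOB : HY.MOB_stmt) (hAFX : DH.AFX_stmt) : LBG_stmt := by
  obtain ⟨C, hC1, hK⟩ := hKO1
  have hC0 : 0 < C := by linarith
  refine ⟨3 * C, by linarith, ?_⟩
  intro Y δ ε₀ hOk V hLv u c hc hcW
  obtain ⟨hitd, hita, hits, -, hLV⟩ := hLVB Y δ ε₀ hOk
  obtain ⟨hPB0, -, hPBmono, -⟩ := hLV V hLv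
  have hDW : DD (PB Y V (u + 1)) := hLv.dd (u + 1)
  have hWV : PB Y V (u + 1) ⊆ V := by
    have := hPBmono 0 (u + 1) (by omega)
    rwa [hPB0] at this
  have hWm : ∀ z ∈ PB Y V (u + 1), it Y (u + 1) z ∈ V := fun z hz => hz
  set W : Set ℂ := PB Y V (u + 1) with hW
  have hcV : c ∈ V := hWV hcW
  have hDV : DD V := by
    have := hLv.dd 0
    rwa [hPB0] at this
  obtain ⟨hVo, -, hV⟩ := hTDF V hDV
  obtain ⟨hWo, -, hWW⟩ := hTDF W hDW
  obtain ⟨hRV, hcrV, hcxV, -, hcxd, hcx1, hcx2⟩ := hV c hcV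
  obtain ⟨hRW, hcrW, -, -, -, -, hrw2⟩ := hWW c hcW
  have hUDb : ∀ x : ℂ, x ∈ UD ↔ ‖x‖ < 1 := fun x => by simp [UD]
  have h0U : (0 : ℂ) ∈ UD := by simp [UD]
  set P : ℂ → ℂ := rm W c with hP
  have hPm : MapsTo P UD W := fun x hx => (hrw2 x hx).1
  have hP0 : P 0 = c := hRW.val
  -- the inclusion
  set j : ℂ → ℂ := fun x => cx V c (P x) with hj
  have hjd : DifferentiableOn ℂ j UD := hcxd.comp hRW.dif (fun x hx => hWV (hPm hx))
  have hji : InjOn j UD := by
    intro x hx y hy he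
    have h1 := (hcx1 (P x) (hWV (hPm hx))).2.1
    have h2 := (hcx1 (P y) (hWV (hPm hy))).2.1
    apply hRW.inj hx hy
    change P x = P y
    rw [← h1, ← h2]
    exact congrArg (rm V c) he
  have hjm : ∀ x ∈ UD, j x ∈ UD := fun x hx => (hcx1 (P x) (hWV (hPm hx))).1
  have hj0 : j 0 = 0 := by simp only [hj, hP0, hcxV]
  have hΦj : ∀ x ∈ UD, rm V c (j x) = P x := fun x hx => (hcx1 (P x) (hWV (hPm hx))).2.1
  set κ : ℝ := ‖deriv j 0‖ with hκ
  have hκeq : cr W c = κ * cr V c := by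
    have e1 : HasDerivAt j (deriv j 0) 0 :=
      ((hjd 0 h0U).differentiableAt (isOpen_ball.mem_nhds h0U)).hasDerivAt
    have e2 : HasDerivAt (rm V c) (deriv (rm V c) 0) (j 0) := by
      rw [hj0]
      exact ((hRV.dif 0 h0U).differentiableAt (isOpen_ball.mem_nhds h0U)).hasDerivAt
    have e3 : HasDerivAt (fun x => rm V c (j x)) (deriv (rm V c) 0 * deriv j 0) 0 := e2.comp (0 : ℂ) e1
    have e4 : HasDerivAt P (deriv P 0) 0 :=
      ((hRW.dif 0 h0U).differentiableAt (isOpen_ball.mem_nhds h0U)).hasDerivAt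
    have e5 : (fun x => rm V c (j x)) =ᶠ[𝓝 0] P := by
      filter_upwards [isOpen_ball.mem_nhds h0U] with x hx
      exact hΦj x hx
    have e6 := e4.unique (e3.congr_of_eventuallyEq e5.symm)
    unfold cr
    rw [← hP, e6, norm_mul, hκ, mul_comm]
  have hκ0 : 0 < κ := norm_pos_iff.2 (hKO0 j UD isOpen_ball hjd hji 0 h0U)
  have hκ1 : κ ≤ 1 := Complex.norm_deriv_le_one_of_mapsTo_ball (f := j) (c := 0) (R := 1) hjd
      (fun x hx => ball_subset_closedBall (by rw [hj0]; exact hjm x hx)) one_pos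
  -- the return map
  set B : ℂ → ℂ := fun x => cx V c (it Y (u + 1) (P x)) with hB
  have hBd : DifferentiableOn ℂ B UD :=
    hcxd.comp ((hitd (u + 1)).comp_differentiableOn hRW.dif) (fun x hx => hWm _ (hPm hx))
  have hBm : ∀ x ∈ UD, B x ∈ UD := fun x hx => (hcx1 _ (hWm _ (hPm hx))).1
  have hΦB : ∀ x ∈ UD, rm V c (B x) = it Y (u + 1) (P x) := fun x hx => (hcx1 _ (hWm _ (hPm hx))).2.1
  set a : ℂ := B 0 with ha
  have haU : a ∈ UD := hBm 0 h0U
  have hpd : pd V c (it Y (u + 1) c) = ‖a‖ := by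
    rw [(hcx1 _ (hWm _ hcW)).2.2.1, ha]
    simp only [hB, hP0]
  have hit0 : deriv (it Y (u + 1)) c = 0 := by
    have e1 : HasDerivAt Y.f (deriv Y.f c) c := (hOk.dif c).hasDerivAt
    have e2 : HasDerivAt (it Y u) (deriv (it Y u) (Y.f c)) (Y.f c) := (hitd u (Y.f c)).hasDerivAt
    have e3 : HasDerivAt (it Y (u + 1)) (deriv (it Y u) (Y.f c) * deriv Y.f c) c := by
      have e4 : it Y (u + 1) = it Y u ∘ Y.f := by
        funext z
        simp only [it, Function.comp_apply, Function.iterate_succ_apply]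
      rw [e4]
      exact e2.comp c e1
    rw [e3.deriv, hc, mul_zero]
  have hB' : HasDerivAt B 0 0 := by
    have e1 : HasDerivAt P (deriv P 0) 0 :=
      ((hRW.dif 0 h0U).differentiableAt (isOpen_ball.mem_nhds h0U)).hasDerivAt
    have e2 : HasDerivAt (it Y (u + 1)) 0 (P 0) := by
      rw [hP0, ← hit0]
      exact (hitd (u + 1) c).hasDerivAt
    have e3 : HasDerivAt (fun x => it Y (u + 1) (P x)) (0 * deriv P 0) 0 := e2.comp (0 : ℂ) e1
    have e4 : HasDerivAt (cx V c) (deriv (cx V c) (it Y (u + 1) (P 0))) (it Y (u + 1) (P 0)) := by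
      have h1 : it Y (u + 1) (P 0) ∈ V := hWm _ (hPm h0U)
      exact ((hcxd _ h1).differentiableAt (hVo.mem_nhds h1)).hasDerivAt
    have e5 : HasDerivAt B (deriv (cx V c) (it Y (u + 1) (P 0)) * (0 * deriv P 0)) 0 := e4.comp (0 : ℂ) e3
    rwa [zero_mul, mul_zero] at e5
  obtain ⟨hmobv, hTvv, -, hTvd, -⟩ := hMOB a haU
  have ha1 : ‖a‖ < 1 := (hUDb a).1 haU
  have hBT : ∀ x ∈ UD, ‖B x - a‖ ≤ 2 * ‖x‖ ^ 2 := by
    intro y hy
    have h1 : DifferentiableOn ℂ (fun y => T a (B y)) (ball 0 1) := hTvd.comp hBd (fun x hx => hBm x hx)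
    have h2 : MapsTo (fun y => T a (B y)) (ball 0 1) (closedBall 0 1) := fun z hz =>
      ball_subset_closedBall ((hmobv _ (hBm z hz)).1)
    have h3 : (fun y => T a (B y)) 0 = 0 := by
      simp only [← ha, hTvv]
    have h3' : deriv (fun y => T a (B y)) 0 = 0 := by
      have e1 : HasDerivAt (T a) (deriv (T a) (B 0)) (B 0) :=
        ((hTvd _ haU).differentiableAt (isOpen_ball.mem_nhds haU)).hasDerivAt
      have e2 := e1.comp (0 : ℂ) hB'
      rw [mul_zero] at e2
      exact e2.deriv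
    have h4 := LBG_schwarz h1 h2 h3 h3' ((hUDb y).mp hy)
    have hGy : ‖B y‖ < 1 := (hUDb _).mp (hBm y hy)
    have h5 : ‖T a (B y)‖ * ‖1 - (starRingEnd ℂ) a * B y‖ = ‖B y - a‖ := by
      unfold T
      rw [norm_div, div_mul_cancel₀]
      rw [norm_ne_zero_iff]
      intro h
      have h6 : (starRingEnd ℂ) a * B y = 1 := (sub_eq_zero.mp h).symm
      have h7 := congrArg norm h6
      rw [norm_mul, Complex.norm_conj, norm_one] at h7
      nlinarith [norm_nonneg a, norm_nonneg (B y)]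
    have h6 : ‖1 - (starRingEnd ℂ) a * B y‖ ≤ 2 := by
      refine (norm_sub_le _ _).trans ?_
      rw [norm_one, norm_mul, Complex.norm_conj]
      nlinarith [norm_nonneg a, norm_nonneg (B y)]
    rw [← h5]
    have h8 : ‖T a (B y)‖ ≤ ‖y‖ ^ 2 := h4
    nlinarith [norm_nonneg (T a (B y)), norm_nonneg (1 - (starRingEnd ℂ) a * B y), norm_nonneg y]
  have hBv : ∀ x ∈ UD, ‖B x‖ ≤ ‖a‖ + 2 * ‖x‖ ^ 2 := by
    intro x hx
    have h1 := hBT x hx
    have h3 : ‖B x‖ ≤ ‖B x - a‖ + ‖a‖ := by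
      have := norm_add_le (B x - a) a
      rwa [sub_add_cancel] at this
    linarith
  -- the main claim
  have hmain : κ ^ 2 ≤ 8 * C ^ 2 * ‖a‖ := by
    by_contra hlt
    push Not at hlt
    set d : ℝ := κ / (4 * C) with hd
    have hd0 : 0 < d := by positivity
    have hd1 : d ≤ 1 / 4 := by
      rw [hd, div_le_div_iff₀ (by positivity) (by norm_num)]
      nlinarith
    have hdU : ball (0 : ℂ) d ⊆ UD := ball_subset_ball (by linarith)
    set ρ : ℝ := ‖a‖ + 2 * d ^ 2 with hρ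
    have hρd : ρ < d * κ / C := by
      have h1 : 1 / (8 * C ^ 2) * κ ^ 2 + 2 * d ^ 2 = d * κ / C := by
        rw [hd]; field_simp; ring
      have h2 : ‖a‖ < 1 / (8 * C ^ 2) * κ ^ 2 := by
        rw [one_div, inv_mul_eq_div, lt_div_iff₀ (by positivity)]
        linarith
      linarith
    have hjd' : DifferentiableOn ℂ j (ball 0 d) := hjd.mono hdU
    have hji' : InjOn j (ball 0 d) := hji.mono hdU
    have hcov : ball (0 : ℂ) (d * κ / C) ⊆ j '' ball 0 d := by
      have := hK j 0 d hd0 hjd' hji'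
      rwa [hj0] at this
    obtain ⟨g, hg1, hg2⟩ := LBG_inv hKO0 hjd' hji'
    have hρ0 : 0 ≤ ρ := by positivity
    have hBin : ∀ x ∈ ball (0 : ℂ) d, B x ∈ closedBall (0 : ℂ) ρ := by
      intro x hx
      rw [mem_closedBall_zero_iff]
      refine (hBv x (hdU hx)).trans ?_
      rw [mem_ball_zero_iff] at hx
      have : ‖x‖ ^ 2 ≤ d ^ 2 := by gcongr
      linarith
    have hcb : closedBall (0 : ℂ) ρ ⊆ j '' ball 0 d := (closedBall_subset_ball hρd).trans hcov
    have hgd : ∀ y ∈ closedBall (0 : ℂ) ρ, DifferentiableAt ℂ g y ∧ g y ∈ ball (0 : ℂ) d ∧ j (g y) = y := by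
      intro y hy
      obtain ⟨x, hx, rfl⟩ := hcb hy
      refine ⟨hg2 x hx, ?_, ?_⟩
      · rw [hg1 x hx]; exact hx
      · rw [hg1 x hx]
    have hgc : ContinuousOn (fun y => ‖g y‖) (closedBall (0 : ℂ) ρ) := fun y hy =>
      ((hgd y hy).1.continuousAt.norm).continuousWithinAt
    obtain ⟨y0, hy0, hmax⟩ := (isCompact_closedBall (0 : ℂ) ρ).exists_isMaxOn
      ⟨0, by simpa using hρ0⟩ hgc
    have hd' : ‖g y0‖ < d := by
      have := (hgd y0 hy0).2.1
      rwa [mem_ball_zero_iff] at this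
    set h : ℂ → ℂ := fun x => g (B x) with hh
    have hhd : DifferentiableOn ℂ h (ball 0 d) := by
      intro x hx
      have h1 := (hgd _ (hBin x hx)).1
      have h2 : DifferentiableAt ℂ B x := (hBd x (hdU hx)).differentiableAt (isOpen_ball.mem_nhds (hdU hx))
      exact (DifferentiableAt.comp x h1 h2).differentiableWithinAt
    obtain ⟨x0, hx0, hfix, hder⟩ := hAFX h d ‖g y0‖ hd0 hd' hhd (fun x hx => hmax (hBin x hx))
    have hx0U := hdU hx0
    -- the cycle
    have hPf : ∀ x ∈ ball (0 : ℂ) d, it Y (u + 1) (P x) = P (h x) := by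
      intro x hx
      rw [← hΦB x (hdU hx)]
      have h1 := hgd _ (hBin x hx)
      rw [← hΦj (h x) (hdU h1.2.1)]
      show rm V c (B x) = rm V c (j (h x))
      rw [h1.2.2]
    have hcyc : it Y (u + 1) (P x0) = P x0 := by rw [hPf x0 hx0, hfix]
    have hPd : DifferentiableAt ℂ P x0 := (hRW.dif x0 hx0U).differentiableAt (isOpen_ball.mem_nhds hx0U)
    have hPne : deriv P x0 ≠ 0 := (hrw2 x0 hx0U).2.2.2
    have hhx0 : DifferentiableAt ℂ h x0 := (hhd x0 hx0).differentiableAt (isOpen_ball.mem_nhds hx0)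
    have e1 : HasDerivAt (fun x => it Y (u + 1) (P x)) (deriv (it Y (u + 1)) (P x0) * deriv P x0) x0 :=
      (((hitd (u + 1)) (P x0)).hasDerivAt).comp x0 hPd.hasDerivAt
    have e2 : HasDerivAt (fun x => P (h x)) (deriv P x0 * deriv h x0) x0 := by
      have h1 : HasDerivAt P (deriv P x0) (h x0) := by rw [hfix]; exact hPd.hasDerivAt
      exact h1.comp x0 hhx0.hasDerivAt
    have e3 : (fun x => it Y (u + 1) (P x)) =ᶠ[𝓝 x0] (fun x => P (h x)) := by
      filter_upwards [isOpen_ball.mem_nhds hx0] with x hx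
      exact hPf x hx
    have e4 := e1.unique (e2.congr_of_eventuallyEq e3)
    have e5 : deriv (it Y (u + 1)) (P x0) = deriv h x0 := by
      apply mul_right_cancel₀ hPne
      rw [e4, mul_comm]
    have e6 := hOk.w1 (u + 1) (P x0) (by omega) hcyc
    rw [e5] at e6
    linarith [hOk.del]
  -- conclusion
  rw [hpd, hκeq]
  have hs : κ ≤ 3 * C * Real.sqrt ‖a‖ := by
    apply le_of_sq_le_sq _ (by positivity)
    rw [mul_pow, mul_pow, Real.sq_sqrt (norm_nonneg _)]
    nlinarith [mul_nonneg (sq_nonneg C) (norm_nonneg a)]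
  exact mul_le_mul_of_nonneg_right hs hcrV.le

end CSF
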