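import Pool.Agent.helper7.CS.SpecA

/-! # Project cs:, row MBT (helper16): the functions `bt` -/

set_option autoImplicit false

open Complex Metric Set Filter Topology MeasureTheory
open Pool.Agent.helper98.ILF
open HY (UD T S hd UN RM)
open PM (DD rm cx pd cr hdf)

noncomputable section

namespace CSF

theorem MBT (hLVB : LVB_stmt) (hTDF : PM.TDF_stmt) (hTPT : PM.TPT_stmt) : MBT_stmt := by
  intro Y δ ε₀ hOk V hLv t p hp x hx hxS
  obtain ⟨hitd, -, -, -, hLV⟩ := hLVB Y δ ε₀ hOk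
  obtain ⟨-, -, -, -, hmap, hS, hOm, -⟩ := hLV V hLv
  have hDW : DD (PB Y V t) := hLv.dd t
  have hDV : DD (PB Y V (t - x.1)) := hLv.dd (t - x.1)
  have hpW : p ∈ PB Y V t := hp t
  have hip : it Y x.1 p ∈ PB Y V (t - x.1) := (hOm p hp x.1 (t - x.1)).2
  have hc : x.2 ∈ PB Y V (t - x.1) := hS x.2 hxS 0 (t - x.1)
  have hmaps : MapsTo (it Y x.1) (PB Y V t) (PB Y V (t - x.1)) := by
    have h1 := hmap x.1 (t - x.1)
    rwa [show x.1 + (t - x.1) = t by omega] at h1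
  obtain ⟨-, -, hW3⟩ := hTDF _ hDW
  obtain ⟨hRM, -, -, -, -, -, hrmW⟩ := hW3 p hpW
  obtain ⟨-, -, hV3⟩ := hTDF _ hDV
  have h0 : (0 : ℂ) ∈ UD := by simp [UD]
  have hmem : ∀ w ∈ UD, it Y x.1 (rm (PB Y V t) p w) ∈ PB Y V (t - x.1) :=
    fun w hw => hmaps (hrmW w hw).1
  obtain ⟨-, -, -, -, hdif, hall, -⟩ := hV3 x.2 hc
  have hnorm : ∀ w ∈ UD, ‖bt Y V t p x w‖ < 1 ∧
      ‖bt Y V t p x w‖ = pd (PB Y V (t - x.1)) (it Y x.1 (rm (PB Y V t) p w)) x.2 := by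
    intro w hw
    obtain ⟨h1, -, h3, -, -, -⟩ := hall _ (hmem w hw)
    have h4 := (hTPT _ hDV x.2 hc _ (hmem w hw) x.2 hc).1
    refine ⟨?_, ?_⟩
    · have := h1
      rw [UD, mem_ball_zero_iff] at this
      exact this
    · rw [← h4, h3]
      rfl
  have hgg : gg Y V t p x = 1 - ‖bt Y V t p x 0‖ := by
    rw [(hnorm 0 h0).2, hRM.val]
    rfl
  refine ⟨?_, fun w hw => ⟨hmem w hw, (hnorm w hw).1.le, (hnorm w hw).2⟩, hgg, ?_, ?_⟩
  · have h1 : DifferentiableOn ℂ (fun w => it Y x.1 (rm (PB Y V t) p w)) UD :=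
      (hitd x.1).comp_differentiableOn hRM.dif
    exact hdif.comp h1 (fun w hw => hmem w hw)
  · rw [hgg]; linarith [(hnorm 0 h0).1]
  · rw [hgg]; linarith [norm_nonneg (bt Y V t p x 0)]

end CSF
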